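import Mathlib

/-!
# Orthogonal actions on unit spheres: orbits, principal and singular orbits, cohomogeneity;
invariant Riemannian metrics of positive Ricci curvature
-/

set_option autoImplicit false

open scoped RealInnerProductSpace ContDiff Quaternion

namespace Pool.Agent.R731.SO

section Action

variable {G : Type} [Group G] {E : Type} [NormedAddCommGroup E] [InnerProductSpace ℝ E]

/-- The unit sphere of `E`. -/
abbrev Sph (E : Type) [NormedAddCommGroup E] [InnerProductSpace ℝ E] : Type :=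
  Metric.sphere (0 : E) 1

/-- The orbit of the point `p`. -/
def orbit (ρ : G →* (E ≃ₗᵢ[ℝ] E)) (p : E) : Set E := {x | ∃ g, x = ρ g p}

/-- The isotropy group of the point `p`. -/
def stab (ρ : G →* (E ≃ₗᵢ[ℝ] E)) (p : E) : Subgroup G where
  carrier := {g | ρ g p = p}
  one_mem' := by simp
  mul_mem' := by
    intro a b ha hb
    change ρ (a * b) p = p
    rw [map_mul]
    change ρ a (ρ b p) = p
    rw [hb, ha]
  inv_mem' := by
    intro a ha
    change ρ a⁻¹ p = p
    have h : ρ a⁻¹ (ρ a p) = p := by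
      change (ρ a⁻¹ * ρ a) p = p
      rw [← map_mul, inv_mul_cancel, map_one]
      rfl
    have ha' : ρ a p = p := ha
    rw [ha'] at h
    exact h

/-- Two subgroups are conjugate. -/
def ConjSub (H K : Subgroup G) : Prop := ∃ g : G, K = H.map (MulAut.conj g).toMonoidHom

/-- `H` represents the principal isotropy type: the points of the sphere whose isotropy group is
conjugate to `H` form an open dense subset. -/
def IsPrincipalType (ρ : G →* (E ≃ₗᵢ[ℝ] E)) (H : Subgroup G) : Prop :=
  IsOpen {p : Sph E | ConjSub H (stab ρ p)} ∧ Dense {p : Sph E | ConjSub H (stab ρ p)}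

/-- The point `p` lies on a principal orbit: its isotropy group represents the principal isotropy
type. -/
def IsPrincipalPt (ρ : G →* (E ≃ₗᵢ[ℝ] E)) (p : Sph E) : Prop :=
  ∃ H, IsPrincipalType ρ H ∧ ConjSub H (stab ρ p)

/-- The velocity vectors at `p` of the curves which run in the set `O`; for a submanifold `O`
this is its tangent space at `p`. -/
def velocities (O : Set E) (p : E) : Set E :=
  {v | ∃ γ : ℝ → E, (∀ t, γ t ∈ O) ∧ γ 0 = p ∧ HasDerivAt γ v 0}

/-- The dimension of the orbit of `p`: the dimension of its tangent space at `p`. -/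
noncomputable def orbitDim (ρ : G →* (E ≃ₗᵢ[ℝ] E)) (p : E) : ℕ :=
  Module.finrank ℝ (Submodule.span ℝ (velocities (orbit ρ p) p))

/-- `O` is an orbit in the unit sphere. -/
def IsOrbit (ρ : G →* (E ≃ₗᵢ[ℝ] E)) (O : Set E) : Prop := ∃ p : Sph E, O = orbit ρ p

/-- `O` is a principal orbit. -/
def IsPrincipalOrbit (ρ : G →* (E ≃ₗᵢ[ℝ] E)) (O : Set E) : Prop :=
  ∃ p : Sph E, O = orbit ρ p ∧ IsPrincipalPt ρ p

/-- `O` is a singular orbit: its dimension is strictly smaller than that of the principal
orbits. -/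
def IsSingularOrbit (ρ : G →* (E ≃ₗᵢ[ℝ] E)) (O : Set E) : Prop :=
  ∃ p : Sph E, O = orbit ρ p ∧ ∀ p' : Sph E, IsPrincipalPt ρ p' → orbitDim ρ p < orbitDim ρ p'

/-- The action on the unit sphere has cohomogeneity `c`: the principal orbits have codimension `c`
in the sphere. -/
def HasCohomogeneity (ρ : G →* (E ≃ₗᵢ[ℝ] E)) (c : ℕ) : Prop :=
  ∀ p : Sph E, IsPrincipalPt ρ p → orbitDim ρ p + c + 1 = Module.finrank ℝ E

/-- The action makes the unit sphere a `G`-manifold with a single singular orbit: there is a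
principal isotropy type, there is exactly one singular orbit, and only finitely many orbits are not
principal. -/
def HasSingleSingularOrbit (ρ : G →* (E ≃ₗᵢ[ℝ] E)) : Prop :=
  (∃ H : Subgroup G, IsPrincipalType ρ H) ∧ (∃! O : Set E, IsSingularOrbit ρ O) ∧
    {O : Set E | IsOrbit ρ O ∧ ¬ IsPrincipalOrbit ρ O}.Finite

end Action

section Metric

variable {E : Type} [NormedAddCommGroup E] [InnerProductSpace ℝ E]

/-- Smooth vector fields on the unit sphere, given by smooth maps `E → E` which are tangent to the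
sphere at the points of the sphere. -/
def IsField (V : E → E) : Prop :=
  ContDiff ℝ ∞ V ∧ ∀ p : E, ‖p‖ = 1 → ⟪V p, p⟫ = 0

/-- `m p u v` is a Riemannian metric on the unit sphere. -/
structure IsMetric (m : E → E → E → ℝ) : Prop where
  smooth : ∀ V W, IsField V → IsField W → ContDiff ℝ ∞ fun x => m x (V x) (W x)
  add : ∀ p u v w : E, m p (u + v) w = m p u w + m p v w
  smul : ∀ (p u w : E) (c : ℝ), m p (c • u) w = c * m p u w
  symm : ∀ p u v : E, m p u v = m p v u
  pos : ∀ p u : E, ‖p‖ = 1 → ⟪u, p⟫ = 0 → u ≠ 0 → 0 < m p u u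

/-- `D V p u = ∇_u V (p)` is the Levi-Civita connection of the metric `m` on the unit sphere. -/
structure IsLeviCivita (m : E → E → E → ℝ) (D : (E → E) → E → E → E) : Prop where
  field : ∀ V W, IsField V → IsField W → IsField fun x => D V x (W x)
  dir_add : ∀ V, IsField V → ∀ p u v : E, ‖p‖ = 1 → ⟪u, p⟫ = 0 → ⟪v, p⟫ = 0 →
    D V p (u + v) = D V p u + D V p v
  dir_smul : ∀ V, IsField V → ∀ (p u : E) (c : ℝ), ‖p‖ = 1 → ⟪u, p⟫ = 0 →
    D V p (c • u) = c • D V p u
  field_add : ∀ V W, IsField V → IsField W → ∀ p u : E, ‖p‖ = 1 → ⟪u, p⟫ = 0 →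
    D (fun x => V x + W x) p u = D V p u + D W p u
  leibniz : ∀ (f : E → ℝ) (V : E → E), ContDiff ℝ ∞ f → IsField V → ∀ p u : E, ‖p‖ = 1 →
    ⟪u, p⟫ = 0 → D (fun x => f x • V x) p u = f p • D V p u + (fderiv ℝ f p u) • V p
  torsion_free : ∀ V W, IsField V → IsField W → ∀ p : E, ‖p‖ = 1 →
    D W p (V p) - D V p (W p) = fderiv ℝ W p (V p) - fderiv ℝ V p (W p)
  metric : ∀ V W, IsField V → IsField W → ∀ p u : E, ‖p‖ = 1 → ⟪u, p⟫ = 0 →
    fderiv ℝ (fun x => m x (V x) (W x)) p u = m p (D V p u) (W p) + m p (V p) (D W p u)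

/-- The curvature `(R(X, Y) Z)(p) = (∇_X ∇_Y Z - ∇_Y ∇_X Z - ∇_[X, Y] Z)(p)` for vector fields
`X, Y, Z` on the sphere. -/
noncomputable def curv (D : (E → E) → E → E → E) (X Y Z : E → E) (p : E) : E :=
  D (fun x => D Z x (Y x)) p (X p) - D (fun x => D Z x (X x)) p (Y p) -
    D Z p (fderiv ℝ Y p (X p) - fderiv ℝ X p (Y p))

/-- Positive Ricci curvature: `Ric(v, v) = ∑ m(R(e_i, v) v, e_i) > 0` for all nonzero tangent
vectors `v = V p`, where `e_i = X i p` is an orthonormal basis of the tangent space. -/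
def PositiveRicci (m : E → E → E → ℝ) (D : (E → E) → E → E → E) : Prop :=
  ∀ p : E, ‖p‖ = 1 → ∀ V : E → E, IsField V → V p ≠ 0 →
    ∀ X : Fin (Module.finrank ℝ E - 1) → E → E, (∀ i, IsField (X i)) →
      (∀ i j, m p (X i p) (X j p) = if i = j then 1 else 0) →
      0 < ∑ i, m p (curv D (X i) V V p) (X i p)

/-- The action of `g` on the vector `p`. -/
def app {G : Type} [Group G] (ρ : G →* (E ≃ₗᵢ[ℝ] E)) (g : G) (p : E) : E := ρ g p

/-- The action is (jointly) continuous. -/
def IsContinuousAction {G : Type} [Group G] [TopologicalSpace G] (ρ : G →* (E ≃ₗᵢ[ℝ] E)) : Prop :=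
  Continuous fun x : G × E => app ρ x.1 x.2

/-- The unit sphere admits a Riemannian metric of positive Ricci curvature which is invariant
under the action. -/
def AdmitsInvariantPositiveRicci {G : Type} [Group G] (ρ : G →* (E ≃ₗᵢ[ℝ] E)) : Prop :=
  ∃ m : E → E → E → ℝ, IsMetric m ∧
    (∀ g p u v, m (app ρ g p) (app ρ g u) (app ρ g v) = m p u v) ∧
    ∃ D, IsLeviCivita m D ∧ PositiveRicci m D

end Metric

/-- There is an orthogonal action of the topological group `G` on the Euclidean space `E` (a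
continuous action by linear isometries) which makes the unit sphere of `E` a `G`-manifold with a
single singular orbit, of cohomogeneity `c`, and admitting a `G`-invariant Riemannian metric of
positive Ricci curvature. -/
def ExistsAction (G : Type) [Group G] [TopologicalSpace G] (E : Type) [NormedAddCommGroup E]
    [InnerProductSpace ℝ E] (c : ℕ) : Prop :=
  ∃ ρ : G →* (E ≃ₗᵢ[ℝ] E), IsContinuousAction ρ ∧ HasSingleSingularOrbit ρ ∧
    HasCohomogeneity ρ c ∧ AdmitsInvariantPositiveRicci ρ

/-- The group `SU(2)` of unit quaternions. -/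
abbrev SU2 : Type := Metric.sphere (0 : ℍ[ℝ]) 1

end Pool.Agent.R731.SO
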