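import Pool.Agent.R731.SO.Defs

set_option autoImplicit false

open scoped RealInnerProductSpace ContDiff

namespace Pool.Agent.R731.SO

variable {E : Type} [NormedAddCommGroup E] [InnerProductSpace ℝ E]

theorem inner_self1 {p : E} (hp : ‖p‖ = 1) : ⟪p, p⟫ = 1 := by
  rw [real_inner_self_eq_norm_sq, hp]; norm_num

theorem IsField.diff {V : E → E} (hV : IsField V) (p : E) : DifferentiableAt ℝ V p :=
  (hV.1.differentiable (by simp)) p

/-- The derivative in a tangent direction of a function vanishing on the sphere. -/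
theorem fderiv_tangent_zero (g : E → ℝ) (p u : E) (hg : DifferentiableAt ℝ g p)
    (hp : ‖p‖ = 1) (hu : ⟪u, p⟫ = 0) (h0 : ∀ x, ‖x‖ = 1 → g x = 0) : fderiv ℝ g p u = 0 := by
  set c : ℝ := ‖u‖ ^ 2 with hc
  have hc0 : 0 ≤ c := by positivity
  let γ : ℝ → E := fun t => (√(1 + t ^ 2 * c))⁻¹ • (p + t • u)
  have hpos : ∀ t : ℝ, 0 < 1 + t ^ 2 * c := fun t => by positivity
  have hnorm : ∀ t, ‖γ t‖ = 1 := by
    intro t
    have h1 : ‖p + t • u‖ ^ 2 = 1 + t ^ 2 * c := by
      rw [← real_inner_self_eq_norm_sq, inner_add_left, inner_add_right, inner_add_right,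
        real_inner_smul_left, real_inner_smul_right, real_inner_smul_left, real_inner_smul_right,
        real_inner_comm u p, hu, real_inner_self_eq_norm_sq, real_inner_self_eq_norm_sq, hp, hc]
      ring
    have h2 : ‖p + t • u‖ = √(1 + t ^ 2 * c) := by
      rw [← h1, Real.sqrt_sq (norm_nonneg _)]
    change ‖(√(1 + t ^ 2 * c))⁻¹ • (p + t • u)‖ = 1
    rw [norm_smul, h2, norm_inv, Real.norm_of_nonneg (Real.sqrt_nonneg _),
      inv_mul_cancel₀ (Real.sqrt_pos.2 (hpos t)).ne']
  have hd1 : HasDerivAt (fun t : ℝ => 1 + t ^ 2 * c) 0 0 := by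
    have := ((hasDerivAt_pow 2 (0 : ℝ)).mul_const c).const_add 1
    simpa using this
  have hd2 : HasDerivAt (fun t : ℝ => √(1 + t ^ 2 * c)) 0 0 := by
    have := hd1.sqrt (hpos 0).ne'
    simpa using this
  have hd3 : HasDerivAt (fun t : ℝ => (√(1 + t ^ 2 * c))⁻¹) 0 0 := by
    have := hd2.fun_inv (Real.sqrt_pos.2 (hpos 0)).ne'
    simpa using this
  have hd4 : HasDerivAt (fun t : ℝ => p + t • u) u 0 := by
    have := ((hasDerivAt_id (0 : ℝ)).smul_const u).const_add p
    simpa using this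
  have hγ : HasDerivAt γ u 0 := by
    have h := hd3.fun_smul hd4
    have e : (√(1 + (0 : ℝ) ^ 2 * c))⁻¹ • u + (0 : ℝ) • (p + (0 : ℝ) • u) = u := by simp
    rw [e] at h
    exact h
  have hγ0 : γ 0 = p := by simp [γ]
  have h5 : HasDerivAt (g ∘ γ) (fderiv ℝ g p u) 0 := by
    have hg' : HasFDerivAt g (fderiv ℝ g p) (γ 0) := by rw [hγ0]; exact hg.hasFDerivAt
    exact hg'.comp_hasDerivAt 0 hγ
  have h6 : g ∘ γ = fun _ => 0 := by
    funext t
    exact h0 _ (hnorm t)
  rw [h6] at h5
  exact (h5.unique (hasDerivAt_const 0 0))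

/-- The tangential part. -/
noncomputable def tp (p w : E) : E := w - ⟪w, p⟫ • p

theorem tp_add (p v w : E) : tp p (v + w) = tp p v + tp p w := by
  unfold tp; rw [inner_add_left, add_smul]; abel
theorem tp_sub (p v w : E) : tp p (v - w) = tp p v - tp p w := by
  unfold tp; rw [inner_sub_left, sub_smul]; abel
theorem tp_smul (p : E) (c : ℝ) (w : E) : tp p (c • w) = c • tp p w := by
  unfold tp; rw [real_inner_smul_left, mul_smul, smul_sub]
theorem tp_of_tangent (p w : E) (h : ⟪w, p⟫ = 0) : tp p w = w := by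
  unfold tp; rw [h, zero_smul, sub_zero]
theorem tp_tangent (p w : E) (hp : ‖p‖ = 1) : ⟪tp p w, p⟫ = 0 := by
  unfold tp; rw [inner_sub_left, real_inner_smul_left, inner_self1 hp]; ring
theorem inner_tp (p w v : E) (hv : ⟪v, p⟫ = 0) : ⟪tp p w, v⟫ = ⟪w, v⟫ := by
  unfold tp; rw [inner_sub_left, real_inner_smul_left, real_inner_comm v p, hv]; ring
theorem tp_self (p : E) (hp : ‖p‖ = 1) : tp p p = 0 := by
  unfold tp; rw [inner_self1 hp, one_smul, sub_self]

/-- The Levi-Civita connection of the round metric: the tangential part of the derivative. -/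
noncomputable def nabla (V : E → E) (p u : E) : E := tp p (fderiv ℝ V p u)

/-- The round metric. -/
noncomputable def rd (_ : E) (u v : E) : ℝ := ⟪u, v⟫

theorem isMetric_rd : IsMetric (rd (E := E)) where
  smooth V W hV hW := hV.1.inner ℝ hW.1
  add p u v w := by unfold rd; rw [inner_add_left]
  smul p u w c := by unfold rd; rw [real_inner_smul_left]
  symm p u v := by unfold rd; rw [real_inner_comm]
  pos p u _ _ hu := by unfold rd; exact real_inner_self_pos.2 hu

/-- `⟨D_u W, p⟩ = -⟨W, u⟩`. -/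
theorem inner_fderiv {W : E → E} (hW : IsField W) (p u : E) (hp : ‖p‖ = 1) (hu : ⟪u, p⟫ = 0) :
    ⟪fderiv ℝ W p u, p⟫ = - ⟪W p, u⟫ := by
  have hd : HasFDerivAt (fun x => ⟪W x, x⟫) _ p :=
    ((hW.diff p).hasFDerivAt).inner ℝ (hasFDerivAt_id p)
  have h := fderiv_tangent_zero (fun x => ⟪W x, x⟫) p u hd.differentiableAt hp hu
    (fun x hx => hW.2 x hx)
  rw [hd.fderiv] at h
  simp [fderivInnerCLM_apply] at h
  linarith

theorem bracket_tangent {V W : E → E} (hV : IsField V) (hW : IsField W) (p : E)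
    (hp : ‖p‖ = 1) : ⟪fderiv ℝ W p (V p) - fderiv ℝ V p (W p), p⟫ = 0 := by
  rw [inner_sub_left, inner_fderiv hW p _ hp (hV.2 p hp), inner_fderiv hV p _ hp (hW.2 p hp),
    real_inner_comm]
  ring

theorem contDiff_apply {V W : E → E} (hV : IsField V) (hW : IsField W) :
    ContDiff ℝ ∞ fun x => fderiv ℝ V x (W x) := by
  have h1 : ContDiff ℝ ∞ (fderiv ℝ V) := hV.1.fderiv_right (by simp)
  exact h1.clm_apply hW.1

theorem isLeviCivita_nabla : IsLeviCivita (rd (E := E)) nabla where
  field V W hV hW := by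
    refine ⟨?_, fun p hp => tp_tangent p _ hp⟩
    have h := contDiff_apply hV hW
    exact h.sub ((h.inner ℝ contDiff_id).smul contDiff_id)
  dir_add V _ p u v _ _ _ := by
    unfold nabla
    rw [map_add, tp_add]
  dir_smul V _ p u c _ _ := by
    unfold nabla
    rw [map_smul, tp_smul]
  field_add V W hV hW p u _ _ := by
    unfold nabla
    have h : fderiv ℝ (fun x => V x + W x) p = fderiv ℝ V p + fderiv ℝ W p :=
      fderiv_fun_add (hV.diff p) (hW.diff p)
    rw [h, add_apply, tp_add]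
  leibniz f V hf hV p u hp _ := by
    unfold nabla
    have hfd : DifferentiableAt ℝ f p := (hf.differentiable (by simp)) p
    have h : fderiv ℝ (fun x => f x • V x) p = f p • fderiv ℝ V p + (fderiv ℝ f p).smulRight (V p) :=
      fderiv_fun_smul hfd (hV.diff p)
    rw [h, add_apply, tp_add, smul_apply, tp_smul, ContinuousLinearMap.smulRight_apply, tp_smul,
      tp_of_tangent p _ (hV.2 p hp)]
  torsion_free V W hV hW p hp := by
    unfold nabla
    rw [← tp_sub, tp_of_tangent p _ (bracket_tangent hV hW p hp)]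
  metric V W hV hW p u hp hu := by
    have h1 := ((hV.diff p).hasFDerivAt).inner ℝ ((hW.diff p).hasFDerivAt)
    have h4 : HasFDerivAt (fun x => rd x (V x) (W x)) _ p := h1
    rw [h4.fderiv]
    simp only [ContinuousLinearMap.comp_apply, ContinuousLinearMap.prod_apply,
      fderivInnerCLM_apply]
    unfold rd nabla
    rw [inner_tp p _ _ (hW.2 p hp), real_inner_comm (tp p _) (V p), inner_tp p _ _ (hV.2 p hp),
      real_inner_comm (V p) (fderiv ℝ W p u)]
    ring

/-- The curvature tensor of the round sphere. -/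
theorem curv_nabla {X Y Z : E → E} (hX : IsField X) (hY : IsField Y) (hZ : IsField Z) (p : E)
    (hp : ‖p‖ = 1) : curv nabla X Y Z p = ⟪Y p, Z p⟫ • X p - ⟪X p, Z p⟫ • Y p := by
  have key : ∀ {X Y : E → E}, IsField X → IsField Y →
      nabla (fun x => nabla Z x (Y x)) p (X p) =
        tp p (fderiv ℝ (fderiv ℝ Z) p (X p) (Y p) + fderiv ℝ Z p (fderiv ℝ Y p (X p))) +
          ⟪Y p, Z p⟫ • X p := by
    intro X Y hX hY
    have hd1 : DifferentiableAt ℝ (fderiv ℝ Z) p :=
      ((hZ.1.fderiv_right (m := ∞) (by simp)).differentiable (by simp)) p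
    have h1 : HasFDerivAt (fun x => fderiv ℝ Z x (Y x)) _ p :=
      hd1.hasFDerivAt.clm_apply (hY.diff p).hasFDerivAt
    have h2 := h1.inner ℝ (hasFDerivAt_id p)
    have h3 := h1.sub (h2.smul (hasFDerivAt_id p))
    have h4 : HasFDerivAt (fun x => nabla Z x (Y x)) _ p := h3
    unfold nabla at h4 ⊢
    rw [h4.fderiv]
    simp only [sub_apply, add_apply, smul_apply, ContinuousLinearMap.comp_apply,
      ContinuousLinearMap.flip_apply, ContinuousLinearMap.smulRight_apply,
      ContinuousLinearMap.id_apply, id]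
    rw [tp_sub, tp_add p (_ • _), tp_smul, tp_smul, tp_self p hp, tp_of_tangent p (X p) (hX.2 p hp),
      inner_fderiv hZ p (Y p) hp (hY.2 p hp), real_inner_comm]
    rw [add_comm (fderiv ℝ Z p (fderiv ℝ Y p (X p)))]
    module
  unfold curv
  rw [key hX hY, key hY hX]
  have hsym : fderiv ℝ (fderiv ℝ Z) p (X p) (Y p) = fderiv ℝ (fderiv ℝ Z) p (Y p) (X p) := by
    have h2 : (2 : WithTop ℕ∞) ≤ (∞ : WithTop ℕ∞) := ENat.LEInfty.out
    have h := (hZ.1.contDiffAt (x := p)).isSymmSndFDerivAt (by simpa using h2)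
    exact h.eq _ _
  have e : nabla Z p (fderiv ℝ Y p (X p) - fderiv ℝ X p (Y p)) =
      tp p (fderiv ℝ Z p (fderiv ℝ Y p (X p))) - tp p (fderiv ℝ Z p (fderiv ℝ X p (Y p))) := by
    unfold nabla
    rw [map_sub, tp_sub]
  rw [e, tp_add, tp_add, hsym]
  abel

theorem positiveRicci_nabla [FiniteDimensional ℝ E] (hE : 3 ≤ Module.finrank ℝ E) :
    PositiveRicci (rd (E := E)) nabla := by
  intro p hp V hV hV0 X hX hon
  have hon' : ∀ i j, ⟪X i p, X j p⟫ = if i = j then (1 : ℝ) else 0 := hon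
  have hsum : ∀ i, rd p (curv nabla (X i) V V p) (X i p) = ‖V p‖ ^ 2 - ⟪X i p, V p⟫ ^ 2 := by
    intro i
    rw [curv_nabla (hX i) hV hV p hp]
    unfold rd
    rw [inner_sub_left, real_inner_smul_left, real_inner_smul_left, hon', if_pos rfl,
      real_inner_self_eq_norm_sq, real_inner_comm (X i p) (V p)]
    ring
  simp only [hsum]
  rw [Finset.sum_sub_distrib, Finset.sum_const, Finset.card_univ, Fintype.card_fin, nsmul_eq_mul]
  have hO : Orthonormal ℝ (fun i => X i p) := by
    rw [orthonormal_iff_ite]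
    exact hon'
  have hB : ∑ i, ⟪X i p, V p⟫ ^ 2 ≤ ‖V p‖ ^ 2 := by
    have h := hO.sum_inner_products_le (x := V p) (s := Finset.univ)
    simpa using h
  have hV1 : 0 < ‖V p‖ ^ 2 := by
    have := norm_pos_iff.2 hV0
    positivity
  have hn : (2 : ℝ) ≤ ((Module.finrank ℝ E - 1 : ℕ) : ℝ) := by
    have : 2 ≤ Module.finrank ℝ E - 1 := by omega
    exact_mod_cast this
  nlinarith

end Pool.Agent.R731.SO
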