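import Pool.Agent.R731.SO.Vel
import Pool.Agent.R731.SO.Ric

set_option autoImplicit false

open scoped RealInnerProductSpace ContDiff Quaternion

namespace Pool.Agent.R731.SO

theorem imag_sq (c : ℍ[ℝ]) (h0 : c.re = 0) (h1 : Quaternion.normSq c = 1) : c * c = -1 := by
  have h2 : c * star c = 1 := by
    rw [Quaternion.self_mul_star, h1]; rfl
  rw [star_eq_neg_of_re c h0, mul_neg] at h2
  rw [← neg_eq_iff_eq_neg]
  exact h2

theorem exists_unit (c c' q0 : ℍ[ℝ]) (h : q0 ≠ 0) (hq : q0 * c = c' * q0) :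
    ∃ q : SU2, (q : ℍ[ℝ]) * c * star (q : ℍ[ℝ]) = c' := by
  have hn : ‖q0‖ ≠ 0 := norm_ne_zero_iff.2 h
  refine ⟨⟨‖q0‖⁻¹ • q0, ?_⟩, ?_⟩
  · rw [mem_sphere_zero_iff_norm, norm_smul, norm_inv, norm_norm, inv_mul_cancel₀ hn]
  · change ‖q0‖⁻¹ • q0 * c * star (‖q0‖⁻¹ • q0) = c'
    have h1 : q0 * star q0 = ((‖q0‖ * ‖q0‖ : ℝ) : ℍ[ℝ]) := by
      rw [Quaternion.self_mul_star, Quaternion.normSq_eq_norm_mul_self]
    have h2 : star (‖q0‖⁻¹ • q0) = ‖q0‖⁻¹ • star q0 := by simp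
    rw [h2, smul_mul_assoc, hq, smul_mul_smul_comm, mul_assoc, h1, ← Quaternion.coe_commutes,
      Quaternion.coe_mul_eq_smul, smul_smul]
    have h3 : ‖q0‖⁻¹ * ‖q0‖⁻¹ * (‖q0‖ * ‖q0‖) = 1 := by field_simp
    rw [h3, one_smul]

/-- the quaternion `i` -/
noncomputable def qi : ℍ[ℝ] := ⟨0, 1, 0, 0⟩
/-- the quaternion `j` -/
noncomputable def qj : ℍ[ℝ] := ⟨0, 0, 1, 0⟩

theorem transitive (c c' : ℍ[ℝ]) (h0 : c.re = 0) (h1 : Quaternion.normSq c = 1) (h0' : c'.re = 0)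
    (h1' : Quaternion.normSq c' = 1) : ∃ q : SU2, (q : ℍ[ℝ]) * c * star (q : ℍ[ℝ]) = c' := by
  have hc := imag_sq c h0 h1
  have hc' := imag_sq c' h0' h1'
  by_cases hcc : c' = -c
  · -- commutators
    have key : ∀ v : ℍ[ℝ], (v * c - c * v) * c = c' * (v * c - c * v) := by
      intro v
      rw [hcc, sub_mul, mul_sub, mul_assoc v c c, hc, neg_mul, neg_mul, ← mul_assoc c c v, hc,
        mul_assoc c v c]
      simp
      abel
    by_cases h2 : qi * c - c * qi = 0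
    · by_cases h3 : qj * c - c * qj = 0
      · exfalso
        have e1 := congrArg QuaternionAlgebra.imJ h2
        have e2 := congrArg QuaternionAlgebra.imK h2
        have e3 := congrArg QuaternionAlgebra.imK h3
        simp [qi, qj] at e1 e2 e3
        have f1 : c.imK = 0 := by linarith
        have f2 : c.imJ = 0 := by linarith
        have f3 : c.imI = 0 := by linarith
        rw [normSq_eq4, h0, f1, f2, f3] at h1
        norm_num at h1
      · exact exists_unit c c' _ h3 (key _)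
    · exact exists_unit c c' _ h2 (key _)
  · refine exists_unit c c' (1 - c' * c) ?_ ?_
    · intro h
      apply hcc
      have h2 : c' * c = 1 := (sub_eq_zero.1 h).symm
      have h3 : c' * (c * c) = c := by rw [← mul_assoc, h2, one_mul]
      rw [hc, mul_neg, mul_one] at h3
      rw [← h3, neg_neg]
    · rw [sub_mul, one_mul, mul_assoc, hc, mul_sub, mul_one, ← mul_assoc, hc']
      simp [add_comm]

/-- the singular orbit -/
def O0 : Set E11 := {p | Sing p ∧ ‖p‖ = 1}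

theorem orbit_sing (p : Sph E11) (hp : Sing p) : orbit rho (p : E11) = O0 := by
  have hp1 : ‖(p : E11)‖ = 1 := mem_sphere_zero_iff_norm.1 p.2
  have hn : ∀ p : E11, Sing p → ‖p‖ = 1 → Quaternion.normSq (qc p) = 1 := by
    intro p hs h1
    have h := norm_sq_eq p
    rw [hs.1, hs.2, h1] at h
    simp at h
    exact h.symm
  ext x
  constructor
  · rintro ⟨g, rfl⟩
    refine ⟨⟨?_, ?_⟩, ?_⟩
    · rw [rho_apply, qa_act, hp.1, mul_zero]
    · rw [rho_apply, qb_act, hp.2, mul_zero]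
    · rw [LinearIsometryEquiv.norm_map, hp1]
  · rintro ⟨hx, hx1⟩
    obtain ⟨q, hq⟩ := transitive (qc p) (qc x) (qc_re _) (hn p hp hp1) (qc_re _) (hn x hx hx1)
    refine ⟨q, ?_⟩
    apply ext3
    · rw [rho_apply, qa_act, hp.1, mul_zero, hx.1]
    · rw [rho_apply, qb_act, hp.2, mul_zero, hx.2]
    · rw [rho_apply, qc_act, hq]

/-- a singular point -/
noncomputable def s0 : Sph E11 := ⟨mk 0 0 ⟨0, 1, 0, 0⟩, by
  rw [mem_sphere_zero_iff_norm]
  have h : ‖mk 0 0 ⟨0, 1, 0, 0⟩‖ ^ 2 = 1 := by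
    rw [norm_sq_eq, qa_mk, qb_mk, qc_mk _ _ _ rfl, normSq_eq4, normSq_eq4]
    simp
  have := norm_nonneg (mk 0 0 ⟨0, 1, 0, 0⟩)
  nlinarith⟩

theorem sing_s0 : Sing s0 := ⟨qa_mk _ _ _, qb_mk _ _ _⟩

theorem singularOrbit_iff (O : Set E11) : IsSingularOrbit rho O ↔ O = O0 := by
  constructor
  · rintro ⟨p, hO, h⟩
    by_cases hp : Sing p
    · rw [hO, orbit_sing p hp]
    · exact absurd (h p ((isPrincipalPt_iff p).2 hp)) (lt_irrefl _)
  · rintro rfl
    refine ⟨s0, (orbit_sing s0 sing_s0).symm, fun p' hp' => ?_⟩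
    rw [orbitDim_free p' ((isPrincipalPt_iff p').1 hp')]
    exact orbitDim_sing s0 sing_s0

theorem nonprincipal_finite : {O : Set E11 | IsOrbit rho O ∧ ¬ IsPrincipalOrbit rho O}.Finite := by
  refine (Set.finite_singleton O0).subset ?_
  rintro O ⟨⟨p, hO⟩, h⟩
  by_cases hp : Sing p
  · rw [Set.mem_singleton_iff, hO, orbit_sing p hp]
  · exact absurd ⟨p, hO, (isPrincipalPt_iff p).2 hp⟩ h

theorem main : ExistsAction SU2 E11 7 := by
  refine ⟨rho, continuous_rho, ⟨⟨⊥, isPrincipalType_bot⟩, ⟨O0, (singularOrbit_iff O0).2 rfl,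
    fun O h => (singularOrbit_iff O).1 h⟩, nonprincipal_finite⟩, ?_, rd, isMetric_rd, ?_, nabla,
    isLeviCivita_nabla, positiveRicci_nabla ?_⟩
  · intro p hp
    rw [orbitDim_free p ((isPrincipalPt_iff p).1 hp)]
    simp
  · intro g p u v
    exact LinearIsometryEquiv.inner_map_map _ _ _
  · simp

end Pool.Agent.R731.SO
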