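import Pool.Agent.R731.SO.Quat

set_option autoImplicit false

open scoped RealInnerProductSpace ContDiff Quaternion

namespace Pool.Agent.R731.SO

/-- `qa` as a continuous linear map -/
noncomputable def qaL : E11 →L[ℝ] ℍ[ℝ] :=
  LinearMap.toContinuousLinearMap { toFun := qa, map_add' := qa_add, map_smul' := qa_smul }
/-- `qb` as a continuous linear map -/
noncomputable def qbL : E11 →L[ℝ] ℍ[ℝ] :=
  LinearMap.toContinuousLinearMap { toFun := qb, map_add' := qb_add, map_smul' := qb_smul }
/-- `qc` as a continuous linear map -/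
noncomputable def qcL : E11 →L[ℝ] ℍ[ℝ] :=
  LinearMap.toContinuousLinearMap { toFun := qc, map_add' := qc_add, map_smul' := qc_smul }
/-- `mk` as a continuous linear map -/
noncomputable def mkL : (ℍ[ℝ] × ℍ[ℝ] × ℍ[ℝ]) →L[ℝ] E11 :=
  LinearMap.toContinuousLinearMap
    { toFun := fun x => mk x.1 x.2.1 x.2.2
      map_add' := fun x y => mk_add _ _ _ _ _ _
      map_smul' := fun r x => mk_smul r _ _ _ }

theorem qaL_apply (p : E11) : qaL p = qa p := rfl
theorem qbL_apply (p : E11) : qbL p = qb p := rfl
theorem qcL_apply (p : E11) : qcL p = qc p := rfl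
theorem mkL_apply (a b c : ℍ[ℝ]) : mkL (a, b, c) = mk a b c := rfl

theorem continuous_qa : Continuous qa := qaL.continuous
theorem continuous_qb : Continuous qb := qbL.continuous
theorem continuous_qc : Continuous qc := qcL.continuous

theorem continuous_act : Continuous fun x : ℍ[ℝ] × E11 => act x.1 x.2 := by
  have h : (fun x : ℍ[ℝ] × E11 => act x.1 x.2) = fun x =>
      mkL (x.1 * qa x.2, x.1 * qb x.2, x.1 * qc x.2 * star x.1) := rfl
  rw [h]
  refine mkL.continuous.comp ?_
  have ha := continuous_qa.comp (continuous_snd (X := ℍ[ℝ]) (Y := E11))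
  have hb := continuous_qb.comp (continuous_snd (X := ℍ[ℝ]) (Y := E11))
  have hc := continuous_qc.comp (continuous_snd (X := ℍ[ℝ]) (Y := E11))
  exact (continuous_fst.mul ha).prodMk ((continuous_fst.mul hb).prodMk
    ((continuous_fst.mul hc).mul continuous_fst.star))

theorem continuous_rho : Continuous fun x : SU2 × E11 => rho x.1 x.2 :=
  continuous_act.comp ((continuous_subtype_val.comp continuous_fst).prodMk continuous_snd)

/-- the singular points -/
def Sing (p : E11) : Prop := qa p = 0 ∧ qb p = 0

theorem eq_one_of_fix (q : SU2) (p : E11) (hp : ¬ Sing p) (h : rho q p = p) : q = 1 := by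
  rw [rho_apply] at h
  have ha : (q : ℍ[ℝ]) * qa p = qa p := by rw [← qa_act, h]
  have hb : (q : ℍ[ℝ]) * qb p = qb p := by rw [← qb_act, h]
  apply Subtype.ext
  change (q : ℍ[ℝ]) = 1
  by_cases h0 : qa p = 0
  · have h1 : qb p ≠ 0 := fun h' => hp ⟨h0, h'⟩
    exact mul_right_cancel₀ h1 (by rw [hb, one_mul])
  · exact mul_right_cancel₀ h0 (by rw [ha, one_mul])

theorem stab_free (p : E11) (hp : ¬ Sing p) : stab rho p = ⊥ := by
  rw [eq_bot_iff]
  intro g hg
  exact eq_one_of_fix g p hp hg

/-- the element `-1` -/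
noncomputable def negOne : SU2 := ⟨-1, by simp⟩

theorem negOne_ne : negOne ≠ 1 := by
  intro h
  have h1 : (-1 : ℍ[ℝ]) = 1 := congrArg Subtype.val h
  have h2 := congrArg QuaternionAlgebra.re h1
  simp at h2
  norm_num at h2

theorem negOne_fix (p : E11) (hp : Sing p) : rho negOne p = p := by
  rw [rho_apply]
  apply ext3
  · rw [qa_act, hp.1, mul_zero]
  · rw [qb_act, hp.2, mul_zero]
  · rw [qc_act]
    change (-1 : ℍ[ℝ]) * qc p * star (-1 : ℍ[ℝ]) = qc p
    simp

theorem stab_sing (p : E11) (hp : Sing p) : stab rho p ≠ ⊥ := by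
  intro h
  have h1 : negOne ∈ stab rho p := negOne_fix p hp
  rw [h] at h1
  exact negOne_ne h1

theorem conjSub_bot (K : Subgroup SU2) : ConjSub ⊥ K ↔ K = ⊥ := by
  constructor
  · rintro ⟨g, h⟩
    rw [h, Subgroup.map_bot]
  · rintro rfl
    exact ⟨1, (Subgroup.map_bot _).symm⟩

theorem conjSub_to_bot (H : Subgroup SU2) (h : ConjSub H ⊥) : H = ⊥ := by
  obtain ⟨g, hg⟩ := h
  rw [eq_comm, Subgroup.map_eq_bot_iff_of_injective] at hg
  · exact hg
  · exact (MulAut.conj g).injective

theorem setOf_conj_bot : {p : Sph E11 | ConjSub ⊥ (stab rho p)} = {p : Sph E11 | ¬ Sing p} := by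
  ext p
  simp only [Set.mem_ofPred_eq, conjSub_bot]
  constructor
  · intro h hs
    exact stab_sing p hs h
  · intro h
    exact stab_free p h

theorem isOpen_free : IsOpen {p : Sph E11 | ¬ Sing p} := by
  have h1 : IsClosed {p : Sph E11 | qa p = 0} :=
    isClosed_eq (continuous_qa.comp continuous_subtype_val) continuous_const
  have h2 : IsClosed {p : Sph E11 | qb p = 0} :=
    isClosed_eq (continuous_qb.comp continuous_subtype_val) continuous_const
  exact (h1.inter h2).isOpen_compl

/-- a free point -/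
noncomputable def e0 : E11 := mk 1 0 0

theorem norm_e0 : ‖e0‖ = 1 := by
  have h : ‖e0‖ ^ 2 = 1 := by
    rw [norm_sq_eq]
    unfold e0
    rw [qa_mk, qb_mk, qc_mk _ _ _ rfl]
    simp
  have := norm_nonneg e0
  nlinarith

theorem inner_e0 (p : E11) (hp : Sing p) : ⟪p, e0⟫ = 0 := by
  have h0 : p 0 = 0 := congrArg QuaternionAlgebra.re hp.1
  rw [PiLp.inner_apply]
  simp only [Fin.sum_univ_succ, Fin.sum_univ_zero]
  simp [e0, mk, h0]

theorem dense_free : Dense {p : Sph E11 | ¬ Sing p} := by
  intro p
  by_cases hp : Sing p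
  · -- the curve `cos ε p + sin ε e0`
    let γ : ℝ → Sph E11 := fun t => ⟨Real.cos t • (p : E11) + Real.sin t • e0, by
      have hp1 : ‖(p : E11)‖ = 1 := mem_sphere_zero_iff_norm.1 p.2
      rw [mem_sphere_zero_iff_norm]
      have h : ‖Real.cos t • (p : E11) + Real.sin t • e0‖ ^ 2 = 1 := by
        rw [← real_inner_self_eq_norm_sq, inner_add_left, inner_add_right, inner_add_right,
          real_inner_smul_left, real_inner_smul_right, real_inner_smul_left,
          real_inner_smul_right, real_inner_smul_left, real_inner_smul_right,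
          real_inner_smul_left, real_inner_smul_right,
          real_inner_self_eq_norm_sq, real_inner_self_eq_norm_sq, hp1, norm_e0,
          real_inner_comm (p : E11) e0, inner_e0 p hp]
        have := Real.sin_sq_add_cos_sq t
        nlinarith
      have h0 := norm_nonneg (Real.cos t • (p : E11) + Real.sin t • e0)
      nlinarith⟩
    have hγc : Continuous γ := by
      refine Continuous.subtype_mk ?_ _
      exact (Real.continuous_cos.smul continuous_const).add
        (Real.continuous_sin.smul continuous_const)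
    have hγ0 : γ 0 = p := by
      apply Subtype.ext
      change Real.cos 0 • (p : E11) + Real.sin 0 • e0 = p
      simp
    rw [← hγ0]
    have hlim : Filter.Tendsto γ (nhdsWithin 0 (Set.Ioi 0)) (nhds (γ 0)) :=
      (hγc.tendsto 0).mono_left nhdsWithin_le_nhds
    refine mem_closure_of_tendsto hlim ?_
    have h3 : Set.Ioo (0 : ℝ) 3 ∈ nhdsWithin (0 : ℝ) (Set.Ioi 0) := Ioo_mem_nhdsGT (by norm_num)
    filter_upwards [h3] with t ht
    intro hs
    have h4 : qa (Real.cos t • (p : E11) + Real.sin t • e0) = 0 := hs.1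
    rw [qa_add, qa_smul, qa_smul, hp.1] at h4
    unfold e0 at h4
    rw [qa_mk] at h4
    have h5 := congrArg QuaternionAlgebra.re h4
    simp at h5
    have h6 : 0 < Real.sin t := Real.sin_pos_of_pos_of_lt_pi ht.1 (by
      have := Real.pi_gt_three; linarith [ht.2])
    linarith
  · exact subset_closure hp

theorem isPrincipalType_bot : IsPrincipalType rho (⊥ : Subgroup SU2) := by
  unfold IsPrincipalType
  rw [setOf_conj_bot]
  exact ⟨isOpen_free, dense_free⟩

theorem isPrincipalPt_iff (p : Sph E11) : IsPrincipalPt rho p ↔ ¬ Sing p := by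
  constructor
  · rintro ⟨H, hH, hc⟩ hs
    -- a free point whose isotropy group is conjugate to `H`
    obtain ⟨p', hp1, hp2⟩ := hH.2.inter_open_nonempty _ isOpen_free
      ⟨⟨e0, mem_sphere_zero_iff_norm.2 norm_e0⟩, by
        intro hs
        have h4 : qa e0 = 0 := hs.1
        unfold e0 at h4
        rw [qa_mk] at h4
        exact one_ne_zero h4⟩
    have h5 : ConjSub H (stab rho p') := hp2
    rw [stab_free p' hp1] at h5
    rw [conjSub_to_bot H h5, conjSub_bot] at hc
    exact stab_sing p hs hc
  · intro h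
    exact ⟨⊥, isPrincipalType_bot, (conjSub_bot _).2 (stab_free p h)⟩

end Pool.Agent.R731.SO
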