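import Pool.Agent.R731.SO.Defs

set_option autoImplicit false

open scoped RealInnerProductSpace ContDiff Quaternion

namespace Pool.Agent.R731.SO

/-- `ℝ¹¹`. -/
abbrev E11 : Type := EuclideanSpace ℝ (Fin 11)

/-- the first quaternionic coordinate -/
noncomputable def qa (p : E11) : ℍ[ℝ] := ⟨p 0, p 1, p 2, p 3⟩
/-- the second quaternionic coordinate -/
noncomputable def qb (p : E11) : ℍ[ℝ] := ⟨p 4, p 5, p 6, p 7⟩
/-- the third, purely imaginary, quaternionic coordinate -/
noncomputable def qc (p : E11) : ℍ[ℝ] := ⟨0, p 8, p 9, p 10⟩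

/-- the vector with given quaternionic coordinates (the real part of the third one is dropped) -/
noncomputable def mk (a b c : ℍ[ℝ]) : E11 :=
  !₂[a.re, a.imI, a.imJ, a.imK, b.re, b.imI, b.imJ, b.imK, c.imI, c.imJ, c.imK]

theorem qa_mk (a b c : ℍ[ℝ]) : qa (mk a b c) = a := by
  ext <;> simp [qa, mk]
theorem qb_mk (a b c : ℍ[ℝ]) : qb (mk a b c) = b := by
  ext <;> simp [qb, mk]
theorem qc_mk (a b c : ℍ[ℝ]) (h : c.re = 0) : qc (mk a b c) = c := by
  ext <;> simp [qc, mk, h]
theorem qc_re (p : E11) : (qc p).re = 0 := rfl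
theorem mk_eta (p : E11) : mk (qa p) (qb p) (qc p) = p := by
  ext i; fin_cases i <;> simp [qa, qb, qc, mk]

theorem ext3 {p p' : E11} (h1 : qa p = qa p') (h2 : qb p = qb p') (h3 : qc p = qc p') : p = p' := by
  rw [← mk_eta p, ← mk_eta p', h1, h2, h3]

theorem normSq_eq4 (a : ℍ[ℝ]) : Quaternion.normSq a = a.re ^ 2 + a.imI ^ 2 + a.imJ ^ 2 + a.imK ^ 2 := by
  rw [Quaternion.normSq_def']

theorem norm_sq_eq (p : E11) : ‖p‖ ^ 2 =
    Quaternion.normSq (qa p) + Quaternion.normSq (qb p) + Quaternion.normSq (qc p) := by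
  rw [EuclideanSpace.norm_sq_eq, normSq_eq4, normSq_eq4, normSq_eq4]
  simp only [Fin.sum_univ_succ, Fin.sum_univ_zero]
  simp [qa, qb, qc]
  ring

theorem mk_add (a b c a' b' c' : ℍ[ℝ]) : mk (a + a') (b + b') (c + c') = mk a b c + mk a' b' c' := by
  ext i; fin_cases i <;> simp [mk]
theorem mk_smul (r : ℝ) (a b c : ℍ[ℝ]) : mk (r • a) (r • b) (r • c) = r • mk a b c := by
  ext i; fin_cases i <;> simp [mk]
theorem qa_add (p p' : E11) : qa (p + p') = qa p + qa p' := by
  ext <;> simp [qa]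
theorem qb_add (p p' : E11) : qb (p + p') = qb p + qb p' := by
  ext <;> simp [qb]
theorem qc_add (p p' : E11) : qc (p + p') = qc p + qc p' := by
  ext <;> simp [qc]
theorem qa_smul (r : ℝ) (p : E11) : qa (r • p) = r • qa p := by
  ext <;> simp [qa]
theorem qb_smul (r : ℝ) (p : E11) : qb (r • p) = r • qb p := by
  ext <;> simp [qb]
theorem qc_smul (r : ℝ) (p : E11) : qc (r • p) = r • qc p := by
  ext <;> simp [qc]

theorem re_conj (q c : ℍ[ℝ]) (hc : c.re = 0) : (q * c * star q).re = 0 := by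
  simp [Quaternion.re_mul, hc]; ring

/-- the action of the unit quaternion `q` -/
noncomputable def act (q : ℍ[ℝ]) (p : E11) : E11 := mk (q * qa p) (q * qb p) (q * qc p * star q)

theorem qa_act (q : ℍ[ℝ]) (p : E11) : qa (act q p) = q * qa p := qa_mk _ _ _
theorem qb_act (q : ℍ[ℝ]) (p : E11) : qb (act q p) = q * qb p := qb_mk _ _ _
theorem qc_act (q : ℍ[ℝ]) (p : E11) : qc (act q p) = q * qc p * star q :=
  qc_mk _ _ _ (re_conj q _ (qc_re p))

theorem act_add (q : ℍ[ℝ]) (p p' : E11) : act q (p + p') = act q p + act q p' := by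
  unfold act
  rw [← mk_add, qa_add, qb_add, qc_add, mul_add, mul_add, mul_add, add_mul]

theorem act_smul (q : ℍ[ℝ]) (r : ℝ) (p : E11) : act q (r • p) = r • act q p := by
  unfold act
  rw [← mk_smul, qa_smul, qb_smul, qc_smul, mul_smul_comm, mul_smul_comm, mul_smul_comm,
    smul_mul_assoc]

theorem act_mul (q q' : ℍ[ℝ]) (p : E11) : act (q * q') p = act q (act q' p) := by
  apply ext3
  · rw [qa_act, qa_act, qa_act, mul_assoc]
  · rw [qb_act, qb_act, qb_act, mul_assoc]
  · rw [qc_act, qc_act, qc_act, star_mul]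
    simp only [mul_assoc]

theorem act_one (p : E11) : act 1 p = p := by
  apply ext3
  · rw [qa_act, one_mul]
  · rw [qb_act, one_mul]
  · rw [qc_act, one_mul, star_one, mul_one]

theorem norm_act (q : ℍ[ℝ]) (hq : ‖q‖ = 1) (p : E11) : ‖act q p‖ = ‖p‖ := by
  have hq' : Quaternion.normSq q = 1 := by
    rw [Quaternion.normSq_eq_norm_mul_self, hq, one_mul]
  have h : ‖act q p‖ ^ 2 = ‖p‖ ^ 2 := by
    rw [norm_sq_eq, norm_sq_eq, qa_act, qb_act, qc_act]
    simp only [map_mul, Quaternion.normSq_star, hq', one_mul, mul_one]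
  exact (sq_eq_sq₀ (norm_nonneg _) (norm_nonneg _)).1 h

theorem norm_SU2 (q : SU2) : ‖(q : ℍ[ℝ])‖ = 1 := mem_sphere_zero_iff_norm.1 q.2

/-- the action as a homomorphism into the orthogonal group -/
noncomputable def rho : SU2 →* (E11 ≃ₗᵢ[ℝ] E11) where
  toFun q :=
    { toFun := act q
      invFun := act (q⁻¹ : SU2)
      map_add' := act_add q
      map_smul' := fun r p => act_smul q r p
      left_inv := fun p => by
        rw [← act_mul, ← Metric.unitSphere.coe_mul, inv_mul_cancel]
        exact act_one p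
      right_inv := fun p => by
        rw [← act_mul, ← Metric.unitSphere.coe_mul, mul_inv_cancel]
        exact act_one p
      norm_map' := norm_act q (norm_SU2 q) }
  map_one' := by
    ext1 p
    exact act_one p
  map_mul' q q' := by
    ext1 p
    exact act_mul q q' p

theorem rho_apply (q : SU2) (p : E11) : rho q p = act q p := rfl

end Pool.Agent.R731.SO
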