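import Pool.Agent.R731.SO.Orb

set_option autoImplicit false

open scoped RealInnerProductSpace ContDiff Quaternion

namespace Pool.Agent.R731.SO

theorem inner_one_left (x : ℍ[ℝ]) : ⟪(1 : ℍ[ℝ]), x⟫ = x.re := by
  rw [Quaternion.inner_def]; simp

theorem star_eq_neg_of_re (x : ℍ[ℝ]) (h : x.re = 0) : star x = -x := by
  ext <;> simp [h]

/-- conjugation as a continuous linear map -/
noncomputable def starH : ℍ[ℝ] →L[ℝ] ℍ[ℝ] :=
  LinearMap.toContinuousLinearMap
    { toFun := fun x => star x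
      map_add' := fun x y => star_add x y
      map_smul' := fun r x => by simp }

theorem starH_apply (x : ℍ[ℝ]) : starH x = star x := rfl

/-- The velocity of the action of a curve of quaternions. -/
theorem hasDerivAt_act (q : ℝ → ℍ[ℝ]) (ξ : ℍ[ℝ]) (h1 : q 0 = 1) (hq : HasDerivAt q ξ 0) (p : E11) :
    HasDerivAt (fun t => act (q t) p) (mk (ξ * qa p) (ξ * qb p) (ξ * qc p + qc p * star ξ)) 0 := by
  have hs : HasDerivAt (fun t => star (q t)) (star ξ) 0 := by
    have := starH.hasFDerivAt.comp_hasDerivAt (x := (0 : ℝ)) hq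
    exact this
  have ha : HasDerivAt (fun t => q t * qa p) (ξ * qa p) 0 := hq.mul_const _
  have hb : HasDerivAt (fun t => q t * qb p) (ξ * qb p) 0 := hq.mul_const _
  have hc : HasDerivAt (fun t => q t * qc p * star (q t)) (ξ * qc p + qc p * star ξ) 0 := by
    have := (hq.mul_const (qc p)).fun_mul hs
    simpa [h1] using this
  have h := mkL.hasFDerivAt.comp_hasDerivAt (x := (0 : ℝ)) (ha.prodMk (hb.prodMk hc))
  exact h

/-- the imaginary quaternion with given components -/
noncomputable def im (x : Fin 3 → ℝ) : ℍ[ℝ] := ⟨0, x 0, x 1, x 2⟩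

theorem im_eta (ξ : ℍ[ℝ]) (h : ξ.re = 0) : im ![ξ.imI, ξ.imJ, ξ.imK] = ξ := by
  ext <;> simp [im, h]

/-- the infinitesimal action -/
noncomputable def LL (p : E11) : (Fin 3 → ℝ) →ₗ[ℝ] E11 where
  toFun x := mk (im x * qa p) (im x * qb p) (im x * qc p + qc p * star (im x))
  map_add' x y := by
    have h : im (x + y) = im x + im y := by ext <;> simp [im]
    rw [h, ← mk_add, add_mul, add_mul, add_mul, star_add, mul_add]
    congr 1
    abel
  map_smul' r x := by
    have h : im (r • x) = r • im x := by ext <;> simp [im]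
    rw [h, RingHom.id_apply, ← mk_smul]
    simp [smul_add]

theorem LL_injective (p : E11) (hp : ¬ Sing p) : Function.Injective (LL p) := by
  rw [← LinearMap.ker_eq_bot, LinearMap.ker_eq_bot']
  intro x hx
  have hx' : mk (im x * qa p) (im x * qb p) (im x * qc p + qc p * star (im x)) = 0 := hx
  have h0 : qa (0 : E11) = 0 := qaL.map_zero
  have h0' : qb (0 : E11) = 0 := qbL.map_zero
  have ha : im x * qa p = 0 := by rw [← qa_mk (im x * qa p) (im x * qb p) (im x * qc p + qc p * star (im x)), hx', h0]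
  have hb : im x * qb p = 0 := by rw [← qb_mk (im x * qa p) (im x * qb p) (im x * qc p + qc p * star (im x)), hx', h0']
  have hi : im x = 0 := by
    rcases mul_eq_zero.1 ha with h | h
    · exact h
    · rcases mul_eq_zero.1 hb with h' | h'
      · exact h'
      · exact absurd ⟨h, h'⟩ hp
  funext i
  fin_cases i
  · exact congrArg QuaternionAlgebra.imI hi
  · exact congrArg QuaternionAlgebra.imJ hi
  · exact congrArg QuaternionAlgebra.imK hi

/-- velocities of an orbit come from the infinitesimal action -/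
theorem velocities_sub (p : E11) (Q : E11 →L[ℝ] ℍ[ℝ]) (hQ : ∀ (q : ℍ[ℝ]) p, Q (act q p) = q * Q p)
    (h0 : Q p ≠ 0) (v : E11) (hv : v ∈ velocities (orbit rho p) p) :
    v ∈ Set.range (LL p) := by
  obtain ⟨γ, hγ, hγ0, hd⟩ := hv
  choose g hg using hγ
  let q : ℝ → ℍ[ℝ] := fun t => (g t : ℍ[ℝ])
  have hq : q = fun t => Q (γ t) * (Q p)⁻¹ := by
    funext t
    have h1 : Q (γ t) = q t * Q p := by
      rw [hg t]; exact hQ _ _
    rw [h1, mul_assoc, mul_inv_cancel₀ h0, mul_one]
  have hqd : HasDerivAt q (Q v * (Q p)⁻¹) 0 := by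
    rw [hq]
    exact (Q.hasFDerivAt.comp_hasDerivAt (x := (0 : ℝ)) hd).mul_const _
  set ξ := Q v * (Q p)⁻¹ with hξ
  have hq0 : q 0 = 1 := by
    rw [hq]
    change Q (γ 0) * (Q p)⁻¹ = 1
    rw [hγ0, mul_inv_cancel₀ h0]
  have hre : ξ.re = 0 := by
    have hn : ∀ t, ⟪q t, q t⟫ = 1 := by
      intro t
      rw [real_inner_self_eq_norm_sq]
      have : ‖q t‖ = 1 := norm_SU2 (g t)
      rw [this]; norm_num
    have h1 := hqd.inner ℝ hqd
    have h2 : HasDerivAt (fun t => ⟪q t, q t⟫) 0 0 := by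
      have : (fun t => ⟪q t, q t⟫) = fun _ => (1 : ℝ) := funext hn
      rw [this]; exact hasDerivAt_const _ _
    have h3 := h1.unique h2
    rw [hq0, real_inner_comm (1 : ℍ[ℝ]) ξ, inner_one_left] at h3
    linarith
  have hγe : γ = fun t => act (q t) p := by
    funext t; exact hg t
  have h4 := hasDerivAt_act q ξ hq0 hqd p
  rw [← hγe] at h4
  refine ⟨![ξ.imI, ξ.imJ, ξ.imK], ?_⟩
  change mk (im _ * qa p) (im _ * qb p) (im _ * qc p + qc p * star (im _)) = v
  rw [im_eta ξ hre]
  exact h4.unique hd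

theorem velocities_sup (p : E11) (x : Fin 3 → ℝ) : LL p x ∈ velocities (orbit rho p) p := by
  set ξ : ℍ[ℝ] := im x with hξ
  have hre : ξ.re = 0 := rfl
  set c : ℝ := ‖ξ‖ ^ 2 with hc
  have hc0 : 0 ≤ c := by positivity
  let q : ℝ → ℍ[ℝ] := fun t => (√(1 + t ^ 2 * c))⁻¹ • (1 + t • ξ)
  have hpos : ∀ t : ℝ, 0 < 1 + t ^ 2 * c := fun t => by positivity
  have hnorm : ∀ t, ‖q t‖ = 1 := by
    intro t
    have e1 : ⟪(1 : ℍ[ℝ]), ξ⟫ = 0 := by rw [inner_one_left]; rfl
    have e2 : ⟪ξ, (1 : ℍ[ℝ])⟫ = 0 := by rw [real_inner_comm]; exact e1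
    have e3 : ⟪(1 : ℍ[ℝ]), (1 : ℍ[ℝ])⟫ = 1 := by rw [real_inner_self_eq_norm_sq, norm_one]; norm_num
    have h1 : ‖(1 : ℍ[ℝ]) + t • ξ‖ ^ 2 = 1 + t ^ 2 * c := by
      rw [← real_inner_self_eq_norm_sq, inner_add_left, inner_add_right, inner_add_right,
        real_inner_smul_left, real_inner_smul_right, real_inner_smul_left, real_inner_smul_right,
        e1, e2, e3, real_inner_self_eq_norm_sq, hc]
      ring
    have h2 : ‖(1 : ℍ[ℝ]) + t • ξ‖ = √(1 + t ^ 2 * c) := by
      rw [← h1, Real.sqrt_sq (norm_nonneg _)]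
    change ‖(√(1 + t ^ 2 * c))⁻¹ • ((1 : ℍ[ℝ]) + t • ξ)‖ = 1
    rw [norm_smul, h2, norm_inv, Real.norm_of_nonneg (Real.sqrt_nonneg _),
      inv_mul_cancel₀ (Real.sqrt_pos.2 (hpos t)).ne']
  have hd1 : HasDerivAt (fun t : ℝ => 1 + t ^ 2 * c) 0 0 := by
    have := ((hasDerivAt_pow 2 (0 : ℝ)).mul_const c).const_add 1
    simpa using this
  have hd2 : HasDerivAt (fun t : ℝ => √(1 + t ^ 2 * c)) 0 0 := by
    have := hd1.sqrt (hpos 0).ne'
    simpa using this
  have hd3 : HasDerivAt (fun t : ℝ => (√(1 + t ^ 2 * c))⁻¹) 0 0 := by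
    have := hd2.fun_inv (Real.sqrt_pos.2 (hpos 0)).ne'
    simpa using this
  have hd4 : HasDerivAt (fun t : ℝ => (1 : ℍ[ℝ]) + t • ξ) ξ 0 := by
    have := ((hasDerivAt_id (0 : ℝ)).smul_const ξ).const_add (1 : ℍ[ℝ])
    simpa using this
  have hqd : HasDerivAt q ξ 0 := by
    have h := hd3.fun_smul hd4
    have e : (√(1 + (0 : ℝ) ^ 2 * c))⁻¹ • ξ + (0 : ℝ) • ((1 : ℍ[ℝ]) + (0 : ℝ) • ξ) = ξ := by simp
    rw [e] at h
    exact h
  have hq0 : q 0 = 1 := by simp [q]
  refine ⟨fun t => act (q t) p, fun t => ?_, ?_, ?_⟩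
  · exact ⟨⟨q t, mem_sphere_zero_iff_norm.2 (hnorm t)⟩, rfl⟩
  · change act (q 0) p = p
    rw [hq0, act_one]
  · exact hasDerivAt_act q ξ hq0 hqd p

theorem velocities_free (p : E11) (hp : ¬ Sing p) :
    velocities (orbit rho p) p = Set.range (LL p) := by
  apply Set.Subset.antisymm
  · intro v hv
    by_cases h0 : qa p = 0
    · have h1 : qb p ≠ 0 := fun h' => hp ⟨h0, h'⟩
      exact velocities_sub p qbL qb_act h1 v hv
    · exact velocities_sub p qaL qa_act h0 v hv
  · rintro _ ⟨x, rfl⟩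
    exact velocities_sup p x

theorem orbitDim_free (p : E11) (hp : ¬ Sing p) : orbitDim rho p = 3 := by
  unfold orbitDim
  rw [velocities_free p hp]
  have h : Submodule.span ℝ (Set.range (LL p)) = LinearMap.range (LL p) := by
    rw [← LinearMap.coe_range, Submodule.span_eq]
  rw [h, LinearMap.finrank_range_of_inj (LL_injective p hp)]
  simp

/-- the vectors with vanishing first two components -/
noncomputable def W3 : Submodule ℝ E11 where
  carrier := {v | qa v = 0 ∧ qb v = 0}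
  zero_mem' := ⟨qaL.map_zero, qbL.map_zero⟩
  add_mem' := fun {u v} hu hv => ⟨by rw [qa_add, hu.1, hv.1, add_zero], by rw [qb_add, hu.2, hv.2, add_zero]⟩
  smul_mem' := fun r v hv => ⟨by rw [qa_smul, hv.1, smul_zero], by rw [qb_smul, hv.2, smul_zero]⟩

theorem finrank_W3 : Module.finrank ℝ W3 ≤ 3 := by
  let f : (Fin 3 → ℝ) →ₗ[ℝ] E11 :=
    { toFun := fun x => mk 0 0 (im x)
      map_add' := fun x y => by
        have h : im (x + y) = im x + im y := by ext <;> simp [im]
        rw [h, ← mk_add, add_zero]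
      map_smul' := fun r x => by
        have h : im (r • x) = r • im x := by ext <;> simp [im]
        rw [h, RingHom.id_apply, ← mk_smul, smul_zero] }
  have h : W3 ≤ LinearMap.range f := by
    rintro v ⟨h1, h2⟩
    refine ⟨![(qc v).imI, (qc v).imJ, (qc v).imK], ?_⟩
    change mk 0 0 (im _) = v
    rw [im_eta _ (qc_re v)]
    nth_rewrite 2 [← mk_eta v]
    rw [h1, h2]
  calc Module.finrank ℝ W3 ≤ Module.finrank ℝ (LinearMap.range f) := Submodule.finrank_mono h
    _ ≤ Module.finrank ℝ (Fin 3 → ℝ) := LinearMap.finrank_range_le f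
    _ = 3 := by simp

theorem orbitDim_sing (p : Sph E11) (hp : Sing p) : orbitDim rho p < 3 := by
  have hp1 : ‖(p : E11)‖ = 1 := mem_sphere_zero_iff_norm.1 p.2
  let W : Submodule ℝ E11 := W3 ⊓ (Submodule.span ℝ {(p : E11)})ᗮ
  have hsub : velocities (orbit rho p) p ⊆ W := by
    rintro v ⟨γ, hγ, hγ0, hd⟩
    refine ⟨⟨?_, ?_⟩, ?_⟩
    · have h1 : HasDerivAt (fun t => qa (γ t)) (qa v) 0 :=
        qaL.hasFDerivAt.comp_hasDerivAt (x := (0 : ℝ)) hd
      have h2 : (fun t => qa (γ t)) = fun _ => 0 := by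
        funext t
        obtain ⟨g, hg⟩ := hγ t
        rw [hg, rho_apply, qa_act, hp.1, mul_zero]
      rw [h2] at h1
      exact h1.unique (hasDerivAt_const _ _)
    · have h1 : HasDerivAt (fun t => qb (γ t)) (qb v) 0 :=
        qbL.hasFDerivAt.comp_hasDerivAt (x := (0 : ℝ)) hd
      have h2 : (fun t => qb (γ t)) = fun _ => 0 := by
        funext t
        obtain ⟨g, hg⟩ := hγ t
        rw [hg, rho_apply, qb_act, hp.2, mul_zero]
      rw [h2] at h1
      exact h1.unique (hasDerivAt_const _ _)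
    · rw [SetLike.mem_coe, Submodule.mem_orthogonal_singleton_iff_inner_left]
      have h1 := hd.inner ℝ hd
      have h2 : HasDerivAt (fun t => ⟪γ t, γ t⟫) 0 0 := by
        have : (fun t => ⟪γ t, γ t⟫) = fun _ => (1 : ℝ) := by
          funext t
          obtain ⟨g, hg⟩ := hγ t
          rw [real_inner_self_eq_norm_sq, hg, LinearIsometryEquiv.norm_map, hp1]
          norm_num
        rw [this]; exact hasDerivAt_const _ _
      have h3 := h1.unique h2
      rw [hγ0, real_inner_comm v (p : E11)] at h3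
      linarith
  have hlt : W < W3 := by
    refine lt_of_le_of_ne inf_le_left ?_
    intro h
    have h1 : (p : E11) ∈ W := by rw [h]; exact hp
    have h2 := (Submodule.mem_orthogonal_singleton_iff_inner_left).1 h1.2
    rw [real_inner_self_eq_norm_sq, hp1] at h2
    norm_num at h2
  unfold orbitDim
  calc Module.finrank ℝ (Submodule.span ℝ (velocities (orbit rho p) p))
      ≤ Module.finrank ℝ W := Submodule.finrank_mono (Submodule.span_le.2 hsub)
    _ < Module.finrank ℝ W3 := Submodule.finrank_lt_finrank_of_lt hlt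
    _ ≤ 3 := finrank_W3

end Pool.Agent.R731.SO
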